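import Pool.Agent.N646.BX.Stm
import Pool.Agent.Helper450.Kneser

/-!
Project BX, part KW: Kneser's theorem for windows of integers.
-/

set_option autoImplicit false

namespace Pool.Agent.N195.BX_KW

open Finset Pool.Agent.Helper450.Kneser
open scoped Pointwise

theorem cast_inj {q : ℕ} {u x x' : ℤ} (hx : u ≤ x ∧ x < u + q) (hx' : u ≤ x' ∧ x' < u + q)
    (h : (x : ZMod q) = (x' : ZMod q)) : x = x' := by
  rw [ZMod.intCast_eq_intCast_iff] at h
  obtain ⟨k, hk⟩ := h.dvd
  have h1 : k < 1 := by
    by_contra hk1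
    push Not at hk1
    nlinarith [hx.1, hx'.2]
  have h2 : -1 < k := by
    by_contra hk1
    push Not at hk1
    nlinarith [hx.2, hx'.1]
  have h3 : k = 0 := by omega
  rw [h3, mul_zero] at hk
  omega

theorem main : Pool.Agent.N646.BX.S_KW := by
  intro m₁ q hm hq u v A B D hA hB hBne hAd hD
  have : NeZero q := ⟨by omega⟩
  classical
  set A' : Finset (ZMod q) := A.image (fun x : ℤ => (x : ZMod q)) with hA'
  set B' : Finset (ZMod q) := B.image (fun y : ℤ => -(y : ZMod q)) with hB'
  have cA : A'.card = A.card := by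
    apply Finset.card_image_of_injOn
    intro x hx x' hx' h
    exact cast_inj (hA x hx) (hA x' hx') h
  have cB : B'.card = B.card := by
    apply Finset.card_image_of_injOn
    intro x hx x' hx' h
    exact cast_inj (hB x hx) (hB x' hx') (neg_inj.1 h)
  have hAne : A.Nonempty := by
    obtain ⟨x, hx, -⟩ := hAd 1 le_rfl hm 0
    exact ⟨x, hx⟩
  set F := (Ico (u - v) (u - v + q)).filter (fun z => z ∈ D ∨ z - q ∈ D) with hF
  have hCF : (A' + B').card ≤ F.card := by
    refine le_trans (Finset.card_le_card ?_) (Finset.card_image_le (s := F)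
      (f := fun z : ℤ => (z : ZMod q)))
    intro c hc
    obtain ⟨a, ha, b, hb, rfl⟩ := Finset.mem_add.1 hc
    obtain ⟨x, hx, rfl⟩ := Finset.mem_image.1 ha
    obtain ⟨y, hy, rfl⟩ := Finset.mem_image.1 hb
    have h1 := hA x hx
    have h2 := hB y hy
    have h3 := hD x hx y hy
    rw [Finset.mem_image]
    by_cases h4 : u - v ≤ x - y
    · refine ⟨x - y, ?_, ?_⟩
      · rw [hF, Finset.mem_filter, Finset.mem_Ico]
        exact ⟨⟨h4, by omega⟩, Or.inl h3⟩
      · push_cast
        ring
    · refine ⟨x - y + q, ?_, ?_⟩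
      · rw [hF, Finset.mem_filter, Finset.mem_Ico]
        refine ⟨⟨by omega, by omega⟩, Or.inr ?_⟩
        rwa [add_sub_cancel_right]
      · push_cast
        rw [ZMod.natCast_self]
        ring
  set H := stab (A' + B') with hH
  have hk := kneser' A' B' (hAne.image _) (hBne.image _)
  rw [← hH] at hk
  have hfsH : (fs H).card = Nat.card H := by
    have h1 : Nat.card H = Nat.card {x // x ∈ fs H} :=
      Nat.card_congr (Equiv.subtypeEquivRight fun x => mem_fs.symm)
    rw [h1, Nat.card_eq_fintype_card, Fintype.card_coe]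
  have hci : Nat.card H * H.index = q := by
    rw [AddSubgroup.card_mul_index, Nat.card_eq_fintype_card, ZMod.card]
  have hAH : A'.card ≤ (A' + fs H).card := by
    apply Finset.card_le_card
    intro x hx
    exact Finset.mem_add.2 ⟨x, hx, 0, mem_fs.2 H.zero_mem, add_zero x⟩
  have hBH : B'.card ≤ (B' + fs H).card := by
    apply Finset.card_le_card
    intro x hx
    exact Finset.mem_add.2 ⟨x, hx, 0, mem_fs.2 H.zero_mem, add_zero x⟩
  have hCF' : ((A' + B').card : ℝ) ≤ F.card := by exact_mod_cast hCF
  refine le_trans ?_ hCF'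
  have hidx : 1 ≤ H.index := Nat.one_le_iff_ne_zero.2 AddSubgroup.FiniteIndex.index_ne_zero
  by_cases he : H.index ≤ m₁
  · -- everything
    have hall : A' + B' = Finset.univ := by
      rw [Finset.eq_univ_iff_forall]
      intro z
      obtain ⟨y₀, hy₀⟩ := hBne
      obtain ⟨x, hx, hxm⟩ := hAd H.index hidx he ((z.val : ℤ) + y₀)
      obtain ⟨k, hk'⟩ := hxm.dvd
      have hw : (x : ZMod q) + -(y₀ : ZMod q) ∈ A' + B' :=
        Finset.add_mem_add (Finset.mem_image_of_mem _ hx)
          (Finset.mem_image_of_mem (fun y : ℤ => -(y : ZMod q)) hy₀)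
      have hg : H.index • (k : ZMod q) ∈ H := AddSubgroup.nsmul_index_mem H _
      have hz : z = (x : ZMod q) + -(y₀ : ZMod q) + H.index • (k : ZMod q) := by
        have h1 : (((z.val : ℤ) + y₀ - x : ℤ) : ZMod q) = ((H.index : ℤ) * k : ℤ) := by rw [hk']
        push_cast at h1
        rw [ZMod.natCast_val, ZMod.cast_id', id_eq] at h1
        rw [nsmul_eq_mul]
        linear_combination h1
      rw [hz]
      exact stab_add hg hw
    rw [hall, Finset.card_univ, ZMod.card]
    exact min_le_left _ _
  · push Not at he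
    refine le_trans (min_le_right _ _) ?_
    have h1 : ((fs H).card : ℝ) ≤ q / m₁ := by
      rw [le_div_iff₀ (by exact_mod_cast hm), hfsH]
      have h2 : Nat.card H * m₁ ≤ q := by
        calc Nat.card H * m₁ ≤ Nat.card H * H.index := Nat.mul_le_mul_left _ he.le
          _ = q := hci
      exact_mod_cast h2
    have h3 : (A.card : ℝ) + B.card ≤ (A' + B').card + (fs H).card := by
      have : A.card + B.card ≤ (A' + B').card + (fs H).card := by omega
      exact_mod_cast this
    linarith

end Pool.Agent.N195.BX_KW
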