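import Pool.Agent.N979.CP.Stm
import Pool.Agent.N526.CP.MOM
import Pool.Agent.N526.CP.GDc

/-!
# CPN2/GD4: an explicit radius in dimension four (helper195)
-/

set_option autoImplicit false

open MeasureTheory Metric Set

namespace Pool.Agent.N195.CPGD4

open Pool.Agent.H241R3.FV Pool.Agent.N526.CP Pool.Agent.N979.CP Pool.Agent.N526.CP.GDc

lemma polyP {y : ℝ} (h0 : 0 ≤ y) (h1 : y ≤ 11 / 16) :
    9 * ((2 - y) ^ 3 * (6 - y) ^ 3 * ((16 - 16 * y + 5 * y ^ 2) * (48 - 16 * y + 3 * y ^ 2))) ^ 2 <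
    4 * (1 - y) * ((1 - y) * (64 - 64 * y + 19 * y ^ 2) * (6 - y) ^ 3 * (48 - 16 * y + 3 * y ^ 2) +
      27 * ((576 - 192 * y + 31 * y ^ 2) * (2 - y) ^ 3 * (16 - 16 * y + 5 * y ^ 2))) ^ 2 := by
  have hz : 0 ≤ 11 / 16 - y := by linarith
  have key : 4 * (1 - y) * ((1 - y) * (64 - 64 * y + 19 * y ^ 2) * (6 - y) ^ 3 * (48 - 16 * y + 3 * y ^ 2) +
      27 * ((576 - 192 * y + 31 * y ^ 2) * (2 - y) ^ 3 * (16 - 16 * y + 5 * y ^ 2))) ^ 2 -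
    9 * ((2 - y) ^ 3 * (6 - y) ^ 3 * ((16 - 16 * y + 5 * y ^ 2) * (48 - 16 * y + 3 * y ^ 2))) ^ 2 =
    (14904163613870564280970006557005709312 / 672749994932560009201) * y ^ 0 * (11 / 16 - y) ^ 20 +
    (229772522380504532664954267753838018560 / 672749994932560009201) * y ^ 1 * (11 / 16 - y) ^ 19 +
    (1673631623790644883373789052122341310464 / 672749994932560009201) * y ^ 2 * (11 / 16 - y) ^ 18 +
    (7656574874698197350359087683792877387776 / 672749994932560009201) * y ^ 3 * (11 / 16 - y) ^ 17 +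
    (24666637731995172401573831742235179220992 / 672749994932560009201) * y ^ 4 * (11 / 16 - y) ^ 16 +
    (59463705516817334687235575179312065675264 / 672749994932560009201) * y ^ 5 * (11 / 16 - y) ^ 15 +
    (111247090709733026326011922385322891018240 / 672749994932560009201) * y ^ 6 * (11 / 16 - y) ^ 14 +
    (165296842184832965273337806374725406949376 / 672749994932560009201) * y ^ 7 * (11 / 16 - y) ^ 13 +
    (197964442810970313021987839749372719923200 / 672749994932560009201) * y ^ 8 * (11 / 16 - y) ^ 12 +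
    (192796611250680373733112163313159298351104 / 672749994932560009201) * y ^ 9 * (11 / 16 - y) ^ 11 +
    (13938968444438212631366449029801410822144 / 61159090448414546291) * y ^ 10 * (11 / 16 - y) ^ 10 +
    (99585057481077504065082375764300110233600 / 672749994932560009201) * y ^ 11 * (11 / 16 - y) ^ 9 +
    (52609559057918841745505935280779227561984 / 672749994932560009201) * y ^ 12 * (11 / 16 - y) ^ 8 +
    (22412065786602996002352042420394027646976 / 672749994932560009201) * y ^ 13 * (11 / 16 - y) ^ 7 +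
    (7588591070916408175248073704556420136960 / 672749994932560009201) * y ^ 14 * (11 / 16 - y) ^ 6 +
    (1996411830549650735052410218064254074880 / 672749994932560009201) * y ^ 15 * (11 / 16 - y) ^ 5 +
    (393795777550812367741508104155594752000 / 672749994932560009201) * y ^ 16 * (11 / 16 - y) ^ 4 +
    (54907032182302063846897408170746265600 / 672749994932560009201) * y ^ 17 * (11 / 16 - y) ^ 3 +
    (4851172259188976102558907946126080000 / 672749994932560009201) * y ^ 18 * (11 / 16 - y) ^ 2 +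
    (209319226941789808538191992220320000 / 672749994932560009201) * y ^ 19 * (11 / 16 - y) ^ 1 +
    (791480151463675742822367801534375 / 672749994932560009201) * y ^ 20 * (11 / 16 - y) ^ 0 := by ring
  have h2 : 0 < 4 * (1 - y) * ((1 - y) * (64 - 64 * y + 19 * y ^ 2) * (6 - y) ^ 3 * (48 - 16 * y + 3 * y ^ 2) +
      27 * ((576 - 192 * y + 31 * y ^ 2) * (2 - y) ^ 3 * (16 - 16 * y + 5 * y ^ 2))) ^ 2 -
    9 * ((2 - y) ^ 3 * (6 - y) ^ 3 * ((16 - 16 * y + 5 * y ^ 2) * (48 - 16 * y + 3 * y ^ 2))) ^ 2 := by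
    rcases h0.lt_or_eq with h | h
    · rw [key]
      positivity
    · rw [← h]
      norm_num
  linarith

lemma low3 {u m : ℝ} (hu : 0 < u) (hm : 0 < m) :
    (√m)⁻¹ * ((35 - 35 * (u / m) + 21 * (u / m) ^ 2 - 5 * (u / m) ^ 3) / 16) ≤ (√u)⁻¹ := by
  have ha : 0 < √u := Real.sqrt_pos.2 hu
  have hb : 0 < √m := Real.sqrt_pos.2 hm
  obtain ⟨a, hae⟩ : ∃ a, a = √u := ⟨_, rfl⟩
  obtain ⟨b, hb'⟩ : ∃ b, b = √m := ⟨_, rfl⟩
  have e1 : u = a ^ 2 := by rw [hae, Real.sq_sqrt hu.le]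
  have e2 : m = b ^ 2 := by rw [hb', Real.sq_sqrt hm.le]
  rw [← hae] at ha ⊢
  rw [← hb'] at hb ⊢
  rw [e1, e2]
  have key : a⁻¹ - b⁻¹ * ((35 - 35 * (a ^ 2 / b ^ 2) + 21 * (a ^ 2 / b ^ 2) ^ 2 -
      5 * (a ^ 2 / b ^ 2) ^ 3) / 16) =
      ((a - b) ^ 2) ^ 2 * (5 * a ^ 3 + 20 * a ^ 2 * b + 29 * a * b ^ 2 + 16 * b ^ 3) /
        (16 * a * b ^ 7) := by
    field_simp
    ring
  have : 0 ≤ ((a - b) ^ 2) ^ 2 * (5 * a ^ 3 + 20 * a ^ 2 * b + 29 * a * b ^ 2 + 16 * b ^ 3) /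
        (16 * a * b ^ 7) := by positivity
  linarith

lemma moms : (∫ θ : Sph (3 + 1), (θ : E (3 + 1)) 0 ^ 2 ∂(sg (3 + 1)) = 1 / 4) ∧
    (∫ θ : Sph (3 + 1), ((θ : E (3 + 1)) 0 ^ 2) ^ 2 ∂(sg (3 + 1)) = 1 / 8) ∧
    (∫ θ : Sph (3 + 1), ((θ : E (3 + 1)) 0 ^ 2) ^ 3 ∂(sg (3 + 1)) = 5 / 64) ∧
    (∫ θ : Sph (3 + 1), ((θ : E (3 + 1)) 0 ^ 2) ^ 4 ∂(sg (3 + 1)) = 7 / 128) := by
  have j0 := MOM.J_pos 3
  have j1 := MOM.J_rec 3 0 (by norm_num)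
  have j2 := MOM.J_rec 3 1 (by norm_num)
  have j3 := MOM.J_rec 3 2 (by norm_num)
  have j4 := MOM.J_rec 3 3 (by norm_num)
  have m1 := MOM.mom 3 (by norm_num) 1
  have m2 := MOM.mom 3 (by norm_num) 2
  have m3 := MOM.mom 3 (by norm_num) 3
  have m4 := MOM.mom 3 (by norm_num) 4
  norm_num at j1 j2 j3 j4
  simp only [← pow_mul]
  norm_num at m1 m2 m3 m4 ⊢
  have e1 : MOM.J 3 1 = MOM.J 3 0 / 4 := by linarith
  have e2 : MOM.J 3 2 = MOM.J 3 0 / 8 := by linarith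
  have e3 : MOM.J 3 3 = 5 * MOM.J 3 0 / 64 := by linarith
  have e4 : MOM.J 3 4 = 7 * MOM.J 3 0 / 128 := by linarith
  refine ⟨?_, ?_, ?_, ?_⟩
  · rw [m1, e1]
    field_simp
  · rw [m2, e2]
    field_simp
  · rw [m3, e3]
    field_simp
  · rw [m4, e4]
    field_simp

lemma poly4 (hp : IsProbabilityMeasure (sg (3 + 1))) (a b c e f : ℝ) :
    ∫ θ : Sph (3 + 1), (a + b * (θ : E (3 + 1)) 0 ^ 2 + c * ((θ : E (3 + 1)) 0 ^ 2) ^ 2 +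
      e * ((θ : E (3 + 1)) 0 ^ 2) ^ 3 + f * ((θ : E (3 + 1)) 0 ^ 2) ^ 4) ∂(sg (3 + 1)) =
    a + b * (1 / 4) + c * (1 / 8) + e * (5 / 64) + f * (7 / 128) := by
  obtain ⟨h1, h2, h3, h4⟩ := moms
  have c0 : Continuous fun θ : Sph (3 + 1) => (θ : E (3 + 1)) 0 := cont0
  have i0 : Integrable (fun _ : Sph (3 + 1) => a) (sg (3 + 1)) := integ hp continuous_const
  have i1 : Integrable (fun θ : Sph (3 + 1) => b * (θ : E (3 + 1)) 0 ^ 2) (sg (3 + 1)) :=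
    integ hp (by fun_prop)
  have i2 : Integrable (fun θ : Sph (3 + 1) => c * ((θ : E (3 + 1)) 0 ^ 2) ^ 2) (sg (3 + 1)) :=
    integ hp (by fun_prop)
  have i3 : Integrable (fun θ : Sph (3 + 1) => e * ((θ : E (3 + 1)) 0 ^ 2) ^ 3) (sg (3 + 1)) :=
    integ hp (by fun_prop)
  have i4 : Integrable (fun θ : Sph (3 + 1) => f * ((θ : E (3 + 1)) 0 ^ 2) ^ 4) (sg (3 + 1)) :=
    integ hp (by fun_prop)
  have i01 : Integrable (fun θ : Sph (3 + 1) => a + b * (θ : E (3 + 1)) 0 ^ 2) (sg (3 + 1)) :=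
    i0.add i1
  have i012 : Integrable (fun θ : Sph (3 + 1) => a + b * (θ : E (3 + 1)) 0 ^ 2 +
      c * ((θ : E (3 + 1)) 0 ^ 2) ^ 2) (sg (3 + 1)) := i01.add i2
  have i0123 : Integrable (fun θ : Sph (3 + 1) => a + b * (θ : E (3 + 1)) 0 ^ 2 +
      c * ((θ : E (3 + 1)) 0 ^ 2) ^ 2 + e * ((θ : E (3 + 1)) 0 ^ 2) ^ 3) (sg (3 + 1)) := i012.add i3
  rw [integral_add i0123 i4, integral_add i012 i3, integral_add i01 i2, integral_add i0 i1,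
    integral_const_mul, integral_const_mul, integral_const_mul, integral_const_mul, h1, h2, h3, h4,
    integral_const]
  simp

theorem main (hS : S_SPH) (_hG : S_GRAM) (hX : S_GX) : S_GD4 := by
  intro s hs hs1
  obtain ⟨hp, -, -⟩ := hS 3 (by norm_num)
  refine ⟨hs, by linarith, fun s' hs' => ?_⟩
  obtain ⟨h0, h1⟩ := hs'
  have hs'1 : s' < 1 := by linarith
  apply hX 3 (by norm_num) s' h0 hs'1
  obtain ⟨y, hy⟩ : ∃ y, y = s' ^ 2 := ⟨_, rfl⟩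
  have hy0 : 0 ≤ y := by rw [hy]; positivity
  have hy1 : y ≤ 11 / 16 := by rw [hy]; nlinarith
  have c0 : Continuous fun θ : Sph (3 + 1) => (θ : E (3 + 1)) 0 := cont0
  have ci := cont_inv (d := 3) h0 hs'1
  have hxy : ∀ θ : Sph (3 + 1), (s' * (θ : E (3 + 1)) 0) ^ 2 = y * (θ : E (3 + 1)) 0 ^ 2 := by
    intro θ
    rw [hy]
    ring
  have hu : ∀ θ : Sph (3 + 1), 0 < 1 - y * (θ : E (3 + 1)) 0 ^ 2 := by
    intro θ
    have := u_lt h0 hs'1 θ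
    rw [hxy] at this
    linarith
  have h4 : ∀ θ : Sph (3 + 1), (√(1 - (s' * (θ : E (3 + 1)) 0) ^ 2)) ^ (3 + 1) =
      (1 - y * (θ : E (3 + 1)) 0 ^ 2) ^ 2 := by
    intro θ
    rw [hxy]
    have := Real.sq_sqrt (hu θ).le
    calc (√(1 - y * (θ : E (3 + 1)) 0 ^ 2)) ^ (3 + 1) =
        ((√(1 - y * (θ : E (3 + 1)) 0 ^ 2)) ^ 2) ^ 2 := by ring
      _ = _ := by rw [this]
  have hAr : Ar 3 s' = (16 - 16 * y + 5 * y ^ 2) / 64 := by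
    have h3 := poly4 hp 0 1 (-(2 * y)) (y ^ 2) 0
    unfold Ar
    have e : ∫ θ : Sph (3 + 1), (θ : E (3 + 1)) 0 ^ 2 *
        (√(1 - (s' * (θ : E (3 + 1)) 0) ^ 2)) ^ (3 + 1) ∂(sg (3 + 1)) =
        ∫ θ : Sph (3 + 1), (0 + 1 * (θ : E (3 + 1)) 0 ^ 2 + (-(2 * y)) * ((θ : E (3 + 1)) 0 ^ 2) ^ 2 +
          y ^ 2 * ((θ : E (3 + 1)) 0 ^ 2) ^ 3 + 0 * ((θ : E (3 + 1)) 0 ^ 2) ^ 4) ∂(sg (3 + 1)) := by
      refine integral_congr_ae (Filter.Eventually.of_forall fun θ => ?_)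
      simp only [h4]
      ring
    rw [e, h3]
    ring
  have hAt : At 3 s' = (48 - 16 * y + 3 * y ^ 2) / 192 := by
    have h3 := poly4 hp 1 (-1 - 2 * y) (2 * y + y ^ 2) (-y ^ 2) 0
    unfold At
    have e : ∫ θ : Sph (3 + 1), (1 - (θ : E (3 + 1)) 0 ^ 2) *
        (√(1 - (s' * (θ : E (3 + 1)) 0) ^ 2)) ^ (3 + 1) ∂(sg (3 + 1)) =
        ∫ θ : Sph (3 + 1), (1 + (-1 - 2 * y) * (θ : E (3 + 1)) 0 ^ 2 +
          (2 * y + y ^ 2) * ((θ : E (3 + 1)) 0 ^ 2) ^ 2 +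
          (-y ^ 2) * ((θ : E (3 + 1)) 0 ^ 2) ^ 3 + 0 * ((θ : E (3 + 1)) 0 ^ 2) ^ 4) ∂(sg (3 + 1)) := by
      refine integral_congr_ae (Filter.Eventually.of_forall fun θ => ?_)
      simp only [h4]
      ring
    rw [e, h3]
    push_cast
    ring
  have hlb : ∀ m q : ℝ, 0 < m → q = m⁻¹ → ∀ θ : Sph (3 + 1),
      (√m)⁻¹ * ((35 - 35 * ((1 - y * (θ : E (3 + 1)) 0 ^ 2) * q) +
        21 * ((1 - y * (θ : E (3 + 1)) 0 ^ 2) * q) ^ 2 -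
        5 * ((1 - y * (θ : E (3 + 1)) 0 ^ 2) * q) ^ 3) / 16) ≤
      (√(1 - (s' * (θ : E (3 + 1)) 0) ^ 2))⁻¹ := by
    intro m q hm hq θ
    rw [hxy, hq, ← div_eq_mul_inv]
    exact low3 (hu θ) hm
  have hm : 0 < 1 - y / 2 := by linarith
  have hm' : 0 < 1 - y / 6 := by linarith
  have hkr : (√(1 - y / 2))⁻¹ * (1 / 4 * (1 + 3 / 128 * (y / (1 - y / 2)) ^ 2)) ≤ kr 3 s' := by
    obtain ⟨q, hq⟩ : ∃ q, q = (1 - y / 2)⁻¹ := ⟨_, rfl⟩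
    have h3 := poly4 hp 0
      ((√(1 - y / 2))⁻¹ * ((35 - 35 * q + 21 * q ^ 2 - 5 * q ^ 3) / 16))
      ((√(1 - y / 2))⁻¹ * ((35 * q * y - 42 * q ^ 2 * y + 15 * q ^ 3 * y) / 16))
      ((√(1 - y / 2))⁻¹ * ((21 * q ^ 2 * y ^ 2 - 15 * q ^ 3 * y ^ 2) / 16))
      ((√(1 - y / 2))⁻¹ * ((5 * q ^ 3 * y ^ 3) / 16))
    have h5 := mono hp (f := fun θ : Sph (3 + 1) => (0 +
        ((√(1 - y / 2))⁻¹ * ((35 - 35 * q + 21 * q ^ 2 - 5 * q ^ 3) / 16)) * (θ : E (3 + 1)) 0 ^ 2 +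
        ((√(1 - y / 2))⁻¹ * ((35 * q * y - 42 * q ^ 2 * y + 15 * q ^ 3 * y) / 16)) *
          ((θ : E (3 + 1)) 0 ^ 2) ^ 2 +
        ((√(1 - y / 2))⁻¹ * ((21 * q ^ 2 * y ^ 2 - 15 * q ^ 3 * y ^ 2) / 16)) *
          ((θ : E (3 + 1)) 0 ^ 2) ^ 3 +
        ((√(1 - y / 2))⁻¹ * ((5 * q ^ 3 * y ^ 3) / 16)) * ((θ : E (3 + 1)) 0 ^ 2) ^ 4))
      (g := fun θ : Sph (3 + 1) => (θ : E (3 + 1)) 0 ^ 2 *
        (√(1 - (s' * (θ : E (3 + 1)) 0) ^ 2))⁻¹) (by fun_prop) ((c0.pow 2).mul ci) (fun θ => by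
        have := mul_le_mul_of_nonneg_left (hlb _ q hm hq θ) (sq_nonneg ((θ : E (3 + 1)) 0))
        refine le_trans (le_of_eq ?_) this
        ring)
    rw [h3] at h5
    unfold kr
    refine le_trans (le_of_eq ?_) h5
    rw [hq]
    have hm0 : 2 - y ≠ 0 := by linarith
    have e1 : 1 - y / 2 = (2 - y) / 2 := by ring
    have hs0 : √(1 - y / 2) ≠ 0 := (Real.sqrt_pos.2 hm).ne'
    obtain ⟨r, hr⟩ : ∃ r, r = √(1 - y / 2) := ⟨_, rfl⟩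
    rw [← hr] at hs0 ⊢
    rw [e1]
    field_simp
    ring
  have hkt : (√(1 - y / 6))⁻¹ * (1 / 4 * (1 + 5 / 384 * (y / (1 - y / 6)) ^ 2)) ≤ kt 3 s' := by
    obtain ⟨q, hq⟩ : ∃ q, q = (1 - y / 6)⁻¹ := ⟨_, rfl⟩
    have hq0 : 0 < q := by rw [hq]; positivity
    have h3 := poly4 hp
      ((√(1 - y / 6))⁻¹ * ((35 - 35 * q + 21 * q ^ 2 - 5 * q ^ 3) / 16))
      ((√(1 - y / 6))⁻¹ * ((35 * q * y - 42 * q ^ 2 * y + 15 * q ^ 3 * y) / 16 -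
        (35 - 35 * q + 21 * q ^ 2 - 5 * q ^ 3) / 16))
      ((√(1 - y / 6))⁻¹ * ((21 * q ^ 2 * y ^ 2 - 15 * q ^ 3 * y ^ 2) / 16 -
        (35 * q * y - 42 * q ^ 2 * y + 15 * q ^ 3 * y) / 16))
      ((√(1 - y / 6))⁻¹ * ((5 * q ^ 3 * y ^ 3) / 16 -
        (21 * q ^ 2 * y ^ 2 - 15 * q ^ 3 * y ^ 2) / 16))
      ((√(1 - y / 6))⁻¹ * (-((5 * q ^ 3 * y ^ 3) / 16)))
    have h5 := mono hp (f := fun θ : Sph (3 + 1) => (
        ((√(1 - y / 6))⁻¹ * ((35 - 35 * q + 21 * q ^ 2 - 5 * q ^ 3) / 16)) +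
        ((√(1 - y / 6))⁻¹ * ((35 * q * y - 42 * q ^ 2 * y + 15 * q ^ 3 * y) / 16 -
          (35 - 35 * q + 21 * q ^ 2 - 5 * q ^ 3) / 16)) * (θ : E (3 + 1)) 0 ^ 2 +
        ((√(1 - y / 6))⁻¹ * ((21 * q ^ 2 * y ^ 2 - 15 * q ^ 3 * y ^ 2) / 16 -
          (35 * q * y - 42 * q ^ 2 * y + 15 * q ^ 3 * y) / 16)) * ((θ : E (3 + 1)) 0 ^ 2) ^ 2 +
        ((√(1 - y / 6))⁻¹ * ((5 * q ^ 3 * y ^ 3) / 16 -
          (21 * q ^ 2 * y ^ 2 - 15 * q ^ 3 * y ^ 2) / 16)) * ((θ : E (3 + 1)) 0 ^ 2) ^ 3 +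
        ((√(1 - y / 6))⁻¹ * (-((5 * q ^ 3 * y ^ 3) / 16))) * ((θ : E (3 + 1)) 0 ^ 2) ^ 4))
      (g := fun θ : Sph (3 + 1) => (1 - (θ : E (3 + 1)) 0 ^ 2) *
        (√(1 - (s' * (θ : E (3 + 1)) 0) ^ 2))⁻¹) (by fun_prop)
      ((continuous_const.sub (c0.pow 2)).mul ci) (fun θ => by
        have := mul_le_mul_of_nonneg_left (hlb _ q hm' hq θ)
          (show 0 ≤ 1 - (θ : E (3 + 1)) 0 ^ 2 by linarith [sq_le θ])
        refine le_trans (le_of_eq ?_) this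
        ring)
    rw [h3] at h5
    unfold kt
    rw [le_div_iff₀ (by norm_num)]
    refine le_trans ?_ h5
    have e2 : (√(1 - y / 6))⁻¹ * ((35 - 35 * q + 21 * q ^ 2 - 5 * q ^ 3) / 16) +
        (√(1 - y / 6))⁻¹ * ((35 * q * y - 42 * q ^ 2 * y + 15 * q ^ 3 * y) / 16 -
          (35 - 35 * q + 21 * q ^ 2 - 5 * q ^ 3) / 16) * (1 / 4) +
        (√(1 - y / 6))⁻¹ * ((21 * q ^ 2 * y ^ 2 - 15 * q ^ 3 * y ^ 2) / 16 -
          (35 * q * y - 42 * q ^ 2 * y + 15 * q ^ 3 * y) / 16) * (1 / 8) +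
        (√(1 - y / 6))⁻¹ * ((5 * q ^ 3 * y ^ 3) / 16 -
          (21 * q ^ 2 * y ^ 2 - 15 * q ^ 3 * y ^ 2) / 16) * (5 / 64) +
        (√(1 - y / 6))⁻¹ * (-((5 * q ^ 3 * y ^ 3) / 16)) * (7 / 128) =
        (√(1 - y / 6))⁻¹ * (3 / 4 * (1 + 5 / 384 * (y / (1 - y / 6)) ^ 2 +
          5 / 1728 * (y / (1 - y / 6)) ^ 3)) := by
      rw [hq]
      have hm0 : 6 - y ≠ 0 := by linarith
      have e1 : 1 - y / 6 = (6 - y) / 6 := by ring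
      have hs0 : √(1 - y / 6) ≠ 0 := (Real.sqrt_pos.2 hm').ne'
      obtain ⟨r, hr⟩ : ∃ r, r = √(1 - y / 6) := ⟨_, rfl⟩
      rw [← hr] at hs0 ⊢
      rw [e1]
      field_simp
      ring
    rw [e2]
    push_cast
    have h6 : 0 ≤ 5 / 1728 * (y / (1 - y / 6)) ^ 3 := by positivity
    have h7 : 0 < (√(1 - y / 6))⁻¹ := by positivity
    have h8 : 0 ≤ (√(1 - y / 6))⁻¹ * (5 / 1728 * (y / (1 - y / 6)) ^ 3) := by positivity
    linarith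
  -- conclusion
  obtain ⟨c, hc⟩ : ∃ c, c = √(1 - s' ^ 2) := ⟨_, rfl⟩
  rw [← hc]
  have hc0 : 0 < c := by rw [hc, ← hy]; exact Real.sqrt_pos.2 (by linarith)
  have hc2 : c ^ 2 = 1 - y := by rw [hc, ← hy, Real.sq_sqrt (by linarith)]
  have hkr2 : (64 - 64 * y + 19 * y ^ 2) / (128 * (2 - y) ^ 3) ≤ kr 3 s' ^ 2 := by
    have e1 : ((√(1 - y / 2))⁻¹ * (1 / 4 * (1 + 3 / 128 * (y / (1 - y / 2)) ^ 2))) ^ 2 =
        (64 - 64 * y + 19 * y ^ 2) / (128 * (2 - y) ^ 3) +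
          (1 - y / 2)⁻¹ * (1 / 16 * (3 / 128 * (y / (1 - y / 2)) ^ 2) ^ 2) := by
      rw [mul_pow, inv_pow, Real.sq_sqrt hm.le]
      have hm0 : 2 - y ≠ 0 := by linarith
      have e1 : 1 - y / 2 = (2 - y) / 2 := by ring
      rw [e1]
      field_simp
      ring
    have h5 : 0 ≤ (1 - y / 2)⁻¹ * (1 / 16 * (3 / 128 * (y / (1 - y / 2)) ^ 2) ^ 2) := by positivity
    have h6 : ((√(1 - y / 2))⁻¹ * (1 / 4 * (1 + 3 / 128 * (y / (1 - y / 2)) ^ 2))) ^ 2 ≤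
        kr 3 s' ^ 2 := pow_le_pow_left₀ (by positivity) hkr 2
    linarith
  have hkt2 : 3 * (576 - 192 * y + 31 * y ^ 2) / (128 * (6 - y) ^ 3) ≤ kt 3 s' ^ 2 := by
    have e1 : ((√(1 - y / 6))⁻¹ * (1 / 4 * (1 + 5 / 384 * (y / (1 - y / 6)) ^ 2))) ^ 2 =
        3 * (576 - 192 * y + 31 * y ^ 2) / (128 * (6 - y) ^ 3) +
          (1 - y / 6)⁻¹ * (1 / 16 * (5 / 384 * (y / (1 - y / 6)) ^ 2) ^ 2) := by
      rw [mul_pow, inv_pow, Real.sq_sqrt hm'.le]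
      have hm0 : 6 - y ≠ 0 := by linarith
      have e1 : 1 - y / 6 = (6 - y) / 6 := by ring
      rw [e1]
      field_simp
      ring
    have h5 : 0 ≤ (1 - y / 6)⁻¹ * (1 / 16 * (5 / 384 * (y / (1 - y / 6)) ^ 2) ^ 2) := by positivity
    have h6 : ((√(1 - y / 6))⁻¹ * (1 / 4 * (1 + 5 / 384 * (y / (1 - y / 6)) ^ 2))) ^ 2 ≤
        kt 3 s' ^ 2 := pow_le_pow_left₀ (by positivity) hkt 2
    linarith
  have hP := polyP hy0 hy1
  obtain ⟨a, ha⟩ : ∃ a, a = 16 - 16 * y + 5 * y ^ 2 := ⟨_, rfl⟩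
  obtain ⟨b, hb⟩ : ∃ b, b = 48 - 16 * y + 3 * y ^ 2 := ⟨_, rfl⟩
  obtain ⟨A, hA⟩ : ∃ A, A = 64 - 64 * y + 19 * y ^ 2 := ⟨_, rfl⟩
  obtain ⟨B, hB⟩ : ∃ B, B = 576 - 192 * y + 31 * y ^ 2 := ⟨_, rfl⟩
  have ha0 : 0 < a := by rw [ha]; nlinarith
  have hb0 : 0 < b := by rw [hb]; nlinarith
  have hA0 : 0 < A := by rw [hA]; nlinarith
  have hB0 : 0 < B := by rw [hB]; nlinarith
  have hM : 0 < 2 - y := by linarith
  have hM' : 0 < 6 - y := by linarith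
  have h1y : 0 < 1 - y := by linarith
  rw [← ha] at hAr hP
  rw [← hb] at hAt hP
  rw [← hA] at hkr2 hP
  rw [← hB] at hkt2 hP
  obtain ⟨M, hMd⟩ : ∃ M, M = 2 - y := ⟨_, rfl⟩
  obtain ⟨M', hMd'⟩ : ∃ M', M' = 6 - y := ⟨_, rfl⟩
  rw [← hMd] at hM hkr2 hP
  rw [← hMd'] at hM' hkt2 hP
  have hN0 : 0 < (1 - y) * A * M' ^ 3 * b + 27 * (B * M ^ 3 * a) := by positivity
  have hD0 : 0 < M ^ 3 * M' ^ 3 * (a * b) := by positivity
  have hcN : 3 * (M ^ 3 * M' ^ 3 * (a * b)) <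
      2 * c * ((1 - y) * A * M' ^ 3 * b + 27 * (B * M ^ 3 * a)) := by
    apply lt_of_pow_lt_pow_left₀ 2 (by positivity)
    calc (3 * (M ^ 3 * M' ^ 3 * (a * b))) ^ 2 = 9 * (M ^ 3 * M' ^ 3 * (a * b)) ^ 2 := by ring
      _ < 4 * (1 - y) * ((1 - y) * A * M' ^ 3 * b + 27 * (B * M ^ 3 * a)) ^ 2 := hP
      _ = (2 * c * ((1 - y) * A * M' ^ 3 * b + 27 * (B * M ^ 3 * a))) ^ 2 := by
          rw [← hc2]
          ring
  rw [hAr, hAt]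
  push_cast
  have s1 : (3 + 1) * c ^ 3 * (A / (128 * M ^ 3)) / (a / 64) ≤
      (3 + 1) * c ^ 3 * kr 3 s' ^ 2 / (a / 64) := by
    apply div_le_div_of_nonneg_right _ (by positivity)
    exact mul_le_mul_of_nonneg_left hkr2 (by positivity)
  have s2 : (3 + 1) * c * (3 * B / (128 * M' ^ 3)) / (b / 192) ≤
      (3 + 1) * c * kt 3 s' ^ 2 / (b / 192) := by
    apply div_le_div_of_nonneg_right _ (by positivity)
    exact mul_le_mul_of_nonneg_left hkt2 (by positivity)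
  have s3 : (3 + 1) * c ^ 3 * (A / (128 * M ^ 3)) / (a / 64) +
      3 * ((3 + 1) * c * (3 * B / (128 * M' ^ 3)) / (b / 192)) =
      2 * c * ((1 - y) * A * M' ^ 3 * b + 27 * (B * M ^ 3 * a)) / (M ^ 3 * M' ^ 3 * (a * b)) := by
    rw [← hc2]
    field_simp
    ring
  have s4 : 3 < 2 * c * ((1 - y) * A * M' ^ 3 * b + 27 * (B * M ^ 3 * a)) /
      (M ^ 3 * M' ^ 3 * (a * b)) := by
    rw [lt_div_iff₀ hD0]
    exact hcN
  linarith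

end Pool.Agent.N195.CPGD4
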