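import Pool.Agent.N988.EA.Stm

/-! EA/WIN: iteration of the window step (helper195). -/

open MeasureTheory Set
open scoped ENNReal
open Pool.Agent.N988.EA

namespace Pool.Agent.N195.EA

/-- windows of length `w` have mass less than `q` -/
def Win (ν : Measure ℝ) (w q : ℝ) : Prop := ∀ x, ν (Ico x (x + w)) < ENNReal.ofReal q

lemma win_mono {ν : Measure ℝ} {w w' q : ℝ} (h : Win ν w q) (hw : w' ≤ w) : Win ν w' q :=
  fun x => lt_of_le_of_lt (measure_mono (Ico_subset_Ico_right (by linarith))) (h x)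

lemma win_le {ν : Measure ℝ} {w q q' : ℝ} (h : Win ν w q) (hq : q ≤ q') : Win ν w q' :=
  fun x => lt_of_lt_of_le (h x) (ENNReal.ofReal_le_ofReal hq)

lemma win_two {ν : Measure ℝ} {w q : ℝ} (hq : 0 ≤ q) (h : Win ν w q) :
    Win ν (2 * w) (2 * q) := by
  intro x
  have hsub : Ico x (x + 2 * w) ⊆ Ico x (x + w) ∪ Ico (x + w) (x + w + w) := by
    intro y hy
    rcases lt_or_ge y (x + w) with h1 | h1
    · left; exact ⟨hy.1, h1⟩
    · right; exact ⟨h1, by have := hy.2; linarith⟩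
  calc ν (Ico x (x + 2 * w)) ≤ ν (Ico x (x + w)) + ν (Ico (x + w) (x + w + w)) :=
        (measure_mono hsub).trans (measure_union_le _ _)
    _ < ENNReal.ofReal q + ENNReal.ofReal q := ENNReal.add_lt_add (h _) (h _)
    _ = ENNReal.ofReal (2 * q) := by rw [← ENNReal.ofReal_add hq hq, two_mul]

lemma win_step (h1 : S_STEP) (h3 : S_ANA) {b : ℕ} {ν : Measure ℝ} [IsProbabilityMeasure ν]
    (hsym : ν.map (fun x => -x) = ν) (hb : 4 ≤ b) {w q : ℝ} (hq : 0 < q) (hq' : q ≤ 1 / 25)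
    (hw : 2 < w) (h : Win ν w q) : Win (lawstep b ν) (w - 2) (998 / 1000 * q) := by
  obtain ⟨n, hn⟩ : ∃ n : ℕ, n = ⌊1 / q⌋₊ := ⟨_, rfl⟩
  have hq25 : (25 : ℝ) ≤ 1 / q := by
    rw [le_div_iff₀ hq]
    linarith
  have hn25 : 25 ≤ n := by
    rw [hn]
    exact Nat.le_floor (by exact_mod_cast hq25)
  have hn1 : (n : ℝ) ≤ 1 / q := by
    rw [hn]
    exact Nat.floor_le (by positivity)
  have hn2 : 1 / q < (n : ℝ) + 1 := by
    rw [hn]
    exact Nat.lt_floor_add_one _
  have hn0 : (0 : ℝ) < n := by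
    have : (25 : ℝ) ≤ n := by exact_mod_cast hn25
    linarith
  have hqn : q ≤ 1 / n := by
    rw [le_div_iff₀ hn0]
    rw [le_div_iff₀ hq] at hn1
    linarith
  intro x
  have h2 := h1 b ν hsym hb (1 / n) w n (by positivity) hw (by
    rw [mul_one_div_cancel hn0.ne']) (fun x => win_le h hqn x) x
  refine lt_of_le_of_lt h2 ?_
  rw [ENNReal.ofReal_lt_ofReal_iff (by positivity)]
  have h4 := h3 n hn25
  have h5 : 1 < ((n : ℝ) + 1) * q := by
    rwa [div_lt_iff₀ hq] at hn2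
  have h6 : ((n : ℝ) + 1) * Phi n (1 / n) < ((n : ℝ) + 1) * (998 / 1000 * q) := by
    linarith
  exact lt_of_mul_lt_mul_left h6 (by positivity)

section
variable (h1 : S_STEP) (h3 : S_ANA) (h4 : S_H) {b : ℕ} {μ : Measure ℝ} [IsProbabilityMeasure μ]
  (hb : 4 ≤ b) (hsym : μ.map (fun x => -x) = μ)

include h4 in
lemma lw_prob (n : ℕ) : IsProbabilityMeasure (lw μ b n) := by
  obtain ⟨hm, he, -⟩ := h4 μ b n
  rw [← he]
  have : IsProbabilityMeasure (P μ b n) := by unfold P; infer_instance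
  exact Measure.isProbabilityMeasure_map hm.aemeasurable

include h4 hsym in
lemma lw_sym (n : ℕ) : (lw μ b n).map (fun x => -x) = lw μ b n := (h4 μ b n).2.2.2.2 hsym

include h1 h3 h4 hb hsym in
lemma win_iter (i : ℕ) {w q : ℝ} (hq : 0 < q) (hq' : q ≤ 1 / 25) (h : Win (lw μ b i) w q) (j : ℕ)
    (hj : 2 * (j : ℝ) < w) : Win (lw μ b (i + j)) (w - 2 * j) ((998 / 1000) ^ j * q) := by
  induction j with
  | zero => simpa using h
  | succ j ih =>
    push_cast at hj
    have ih' := ih (by linarith)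
    have := lw_prob (b := b) (μ := μ) h4 (i + j)
    have hp : ((998 / 1000 : ℝ)) ^ j ≤ 1 := pow_le_one₀ (by norm_num) (by norm_num)
    have hp0 : 0 < ((998 / 1000 : ℝ)) ^ j := by positivity
    have h5 := win_step h1 h3 (lw_sym h4 hsym (i + j)) hb (by positivity)
      (by nlinarith) (by linarith) ih'
    have e1 : w - 2 * (j : ℝ) - 2 = w - 2 * ((j + 1 : ℕ) : ℝ) := by push_cast; ring
    have e2 : 998 / 1000 * ((998 / 1000 : ℝ) ^ j * q) = (998 / 1000 : ℝ) ^ (j + 1) * q := by ring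
    rw [e1, e2] at h5
    exact h5

include h1 h3 h4 hb hsym in
lemma win_block (i : ℕ) {w q : ℝ} (hq : 0 < q) (hq' : q ≤ 1 / 25) (hw : 2800 ≤ w)
    (h : Win (lw μ b i) w q) : Win (lw μ b (i + 700)) w (q / 2) := by
  have h5 := win_iter h1 h3 h4 hb hsym i hq hq' h 700 (by norm_num; linarith)
  have h6 := win_mono h5 (w' := w / 2) (by norm_num; linarith)
  have h7 := win_two (by positivity) h6
  have e1 : 2 * (w / 2) = w := by ring
  rw [e1] at h7
  refine win_le h7 ?_
  have hp : ((998 / 1000 : ℝ)) ^ 700 ≤ 1 / 4 := by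
    have h8 : ((998 / 1000 : ℝ)) ^ 100 ≤ 8187 / 10000 := by norm_num
    calc ((998 / 1000 : ℝ)) ^ 700 = (((998 / 1000 : ℝ)) ^ 100) ^ 7 := by rw [← pow_mul]
      _ ≤ (8187 / 10000) ^ 7 := pow_le_pow_left₀ (by positivity) h8 7
      _ ≤ 1 / 4 := by norm_num
  have h9 := mul_le_mul_of_nonneg_right hp hq.le
  calc 2 * ((998 / 1000) ^ 700 * q) ≤ 2 * (1 / 4 * q) := mul_le_mul_of_nonneg_left h9 (by norm_num)
    _ = q / 2 := by ring

include h1 h3 h4 hb hsym in
lemma win_blocks (i : ℕ) {w q : ℝ} (hq : 0 < q) (hq' : q ≤ 1 / 25) (hw : 2800 ≤ w)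
    (h : Win (lw μ b i) w q) (m : ℕ) : Win (lw μ b (i + 700 * m)) w (q / 2 ^ m) := by
  induction m with
  | zero => simpa using h
  | succ m ih =>
    have hp : (1 : ℝ) ≤ 2 ^ m := one_le_pow₀ (by norm_num)
    have h5 := win_block h1 h3 h4 hb hsym (i + 700 * m) (q := q / 2 ^ m) (by positivity)
      ((div_le_self hq.le hp).trans hq') hw ih
    have e1 : i + 700 * m + 700 = i + 700 * (m + 1) := by ring
    have e2 : q / 2 ^ m / 2 = q / 2 ^ (m + 1) := by
      rw [pow_succ]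
      field_simp
    rw [e1, e2] at h5
    exact h5

end

theorem t_WIN (h1 : S_STEP) (h2 : S_NUM) (h3 : S_ANA) (h4 : S_H) : S_WIN := by
  obtain ⟨M, q, N, hq0, hqM, hqpos, hstep⟩ := h2
  obtain ⟨r, hr⟩ : ∃ r : ℝ, r = 1 - 1 / 2000 := ⟨_, rfl⟩
  have hr0 : 0 < r := by rw [hr]; norm_num
  have hr1 : r < 1 := by rw [hr]; norm_num
  have hr700 : 1 / 2 ≤ r ^ 700 := by
    have h5 := one_add_mul_le_pow (a := (-(1 / 2000) : ℝ)) (by norm_num) 700
    rw [hr]
    have e : (1 : ℝ) - 1 / 2000 = 1 + -(1 / 2000) := by ring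
    rw [e]
    refine le_trans ?_ h5
    norm_num
  refine ⟨(1 / r) ^ (M + 700), r, by positivity, hr0, hr1, 1 / 4, by norm_num,
    4 * M + 5600, by positivity, ?_⟩
  intro b μ _ hb hsym R hR hμ n x
  have hM0 : (0 : ℝ) ≤ M := Nat.cast_nonneg M
  have hprob := lw_prob (b := b) (μ := μ) h4
  -- phase 1
  have hph1 : ∀ i, i ≤ M → Win (lw μ b i) (R - 2 * i) (q i) := by
    intro i
    induction i with
    | zero =>
      intro _ x
      have h5 := hμ x
      rw [hq0]
      simp only [Nat.cast_zero, mul_zero, sub_zero]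
      refine lt_of_le_of_lt h5 ?_
      have e : (1 / 2 : ℝ≥0∞) = ENNReal.ofReal (1 / 2) := by
        rw [ENNReal.ofReal_div_of_pos (by norm_num)]
        simp
      rw [e, ENNReal.ofReal_lt_ofReal_iff (by norm_num)]
      norm_num
    | succ i ih =>
      intro hi x
      have ih' := ih (by omega)
      have := hprob i
      obtain ⟨h5, h6⟩ := hstep i (by omega)
      have hi' : ((i : ℕ) : ℝ) + 1 ≤ M := by exact_mod_cast hi
      have h7 := h1 b (lw μ b i) (lw_sym h4 hsym i) hb (q i) (R - 2 * i) (N i)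
        (hqpos i (by omega)) (by linarith) h5 ih' x
      have e1 : R - 2 * (i : ℝ) - 2 = R - 2 * ((i + 1 : ℕ) : ℝ) := by push_cast; ring
      rw [e1] at h7
      refine lt_of_le_of_lt h7 ?_
      rw [ENNReal.ofReal_lt_ofReal_iff (hqpos (i + 1) hi)]
      exact h6
  have hCr : ∀ k : ℕ, k ≤ M + 700 → 1 ≤ (1 / r) ^ (M + 700) * r ^ k := by
    intro k hk
    have e : (1 / r) ^ (M + 700) * r ^ k = (1 / r) ^ (M + 700 - k) := by
      obtain ⟨j, hj⟩ := Nat.exists_eq_add_of_le hk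
      rw [hj, Nat.add_sub_cancel_left, pow_add]
      have : (1 / r) ^ k * r ^ k = 1 := by
        rw [← mul_pow, one_div, inv_mul_cancel₀ hr0.ne', one_pow]
      calc (1 / r) ^ k * (1 / r) ^ j * r ^ k = ((1 / r) ^ k * r ^ k) * (1 / r) ^ j := by ring
        _ = _ := by rw [this, one_mul]
    rw [e]
    apply one_le_pow₀
    rw [le_div_iff₀ hr0]
    linarith
  rcases lt_or_ge n M with hnM | hnM
  · -- small levels
    have := hprob n
    calc (lw μ b n) (Ico x (x + 1 / 4 * R)) ≤ 1 := prob_le_one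
      _ = ENNReal.ofReal 1 := by simp
      _ ≤ ENNReal.ofReal ((1 / r) ^ (M + 700) * r ^ n) :=
          ENNReal.ofReal_le_ofReal (hCr n (by omega))
  · -- phase 2
    obtain ⟨m, j, hj, hn⟩ : ∃ m j : ℕ, j < 700 ∧ n = M + 700 * m + j :=
      ⟨(n - M) / 700, (n - M) % 700, Nat.mod_lt _ (by norm_num), by
        have := Nat.div_add_mod (n - M) 700
        omega⟩
    have h5 := win_mono (hph1 M le_rfl) (w' := R / 2) (by linarith)
    have hqM0 := hqpos M le_rfl
    have hw : 2800 ≤ R / 2 := by linarith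
    have h6 := win_blocks h1 h3 h4 hb hsym M hqM0 hqM hw h5 m
    have hp : (1 : ℝ) ≤ 2 ^ m := one_le_pow₀ (by norm_num)
    have hj' : ((j : ℕ) : ℝ) ≤ 700 := by exact_mod_cast hj.le
    have h7 := win_iter h1 h3 h4 hb hsym (M + 700 * m) (q := q M / 2 ^ m) (by positivity)
      ((div_le_self hqM0.le hp).trans hqM) h6 j (by linarith)
    rw [← hn] at h7
    have h8 := win_mono h7 (w' := 1 / 4 * R) (by linarith)
    refine (h8 x).le.trans (ENNReal.ofReal_le_ofReal ?_)
    have h9 : ((998 / 1000 : ℝ)) ^ j ≤ 1 := pow_le_one₀ (by norm_num) (by norm_num)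
    have h10 : ((998 / 1000 : ℝ)) ^ j * (q M / 2 ^ m) ≤ 1 / 2 ^ m := by
      have h11 : q M / 2 ^ m ≤ 1 / 2 ^ m := by
        apply div_le_div_of_nonneg_right _ (by positivity)
        linarith
      have h12 : 0 ≤ q M / 2 ^ m := by positivity
      nlinarith
    have h13 : 1 / 2 ^ m ≤ r ^ (700 * m) := by
      rw [pow_mul, ← one_div_pow]
      exact pow_le_pow_left₀ (by norm_num) hr700 m
    have h14 := hCr (M + j) (by omega)
    have h15 : (1 / r) ^ (M + 700) * r ^ n = ((1 / r) ^ (M + 700) * r ^ (M + j)) * r ^ (700 * m) := by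
      rw [hn, show M + 700 * m + j = (M + j) + 700 * m by ring, pow_add]
      ring
    rw [h15]
    have h16 : 0 < r ^ (700 * m) := by positivity
    nlinarith

end Pool.Agent.N195.EA
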