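import Mathlib
import Pool.Agent.N906.FH.Stm
import Pool.Agent.TH876.FH.Ana
import Pool.Agent.Y729.FW.Surj

/-!
Project FH (helper906), part ARCH, by helper195: the archimedean term of the Faltings height.
-/

set_option autoImplicit false

namespace Pool.Agent.N195.FH

open Pool.Agent.N906.FH
open Pool.Agent.N906.SZ (Dd)

lemma jInv_eq (τ : UpperHalfPlane) : Pool.Agent.TH876.FH.jInv τ = jInv τ := rfl

lemma arch_eq (τ : UpperHalfPlane) : Pool.Agent.TH876.FH.arch τ = arch τ := rfl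

lemma c4_Ec (a b : ℤ) : (Ec a b).c₄ = 48 * (a : ℚ) := by
  simp only [Ec, WeierstrassCurve.c₄, WeierstrassCurve.b₂, WeierstrassCurve.b₄]
  ring

lemma disc_Ec (a b : ℤ) : (Ec a b).Δ = 16 * ((Dd a b : ℤ) : ℚ) := by
  simp only [Ec, WeierstrassCurve.Δ, WeierstrassCurve.b₂, WeierstrassCurve.b₄,
    WeierstrassCurve.b₆, WeierstrassCurve.b₈, Dd]
  push_cast
  ring

lemma jE_eq {a b : ℤ} (h : Dd a b ≠ 0) : jE a b * ((Dd a b : ℤ) : ℚ) = 6912 * (a : ℚ) ^ 3 := by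
  have h' : ((Dd a b : ℤ) : ℚ) ≠ 0 := by exact_mod_cast h
  rw [jE, c4_Ec, disc_Ec]
  field_simp
  ring

lemma jE_abs {a b : ℤ} (h : Dd a b ≠ 0) :
    |((jE a b : ℚ) : ℝ)| * |((Dd a b : ℤ) : ℝ)| = 6912 * |(a : ℝ)| ^ 3 := by
  have h1 := jE_eq h
  have h2 : ((jE a b : ℚ) : ℝ) * ((Dd a b : ℤ) : ℝ) = 6912 * (a : ℝ) ^ 3 := by
    exact_mod_cast h1
  rw [← abs_mul, h2, abs_mul, abs_pow]
  norm_num

/-- **(ARCH)** -/
theorem arch_bds : S_ARCH := by
  obtain ⟨h1, c2, h2⟩ := Pool.Agent.TH876.FH.ana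
  obtain ⟨c1, h1⟩ := h1 1 one_pos
  refine ⟨|c1| + |c2| + Real.log 6912, fun a b hD => ⟨?_, fun τ hτ => ?_⟩⟩
  · obtain ⟨τ, hτ⟩ := Pool.Agent.Y729.FW.j_surj (((jE a b : ℚ) : ℂ))
    exact ⟨τ, hτ⟩
  · have hl : 0 ≤ Real.log 6912 := Real.log_nonneg (by norm_num)
    have g1 := h1 τ
    have g2 := h2 τ
    rw [jInv_eq, arch_eq] at g1 g2
    have hj : ‖jInv τ‖ = |((jE a b : ℚ) : ℝ)| := by
      rw [hτ]
      have : ((jE a b : ℚ) : ℂ) = (((jE a b : ℚ) : ℝ) : ℂ) := by push_cast; rfl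
      rw [this, Complex.norm_real, Real.norm_eq_abs]
    rw [hj, max_comm] at g1 g2
    have hm : (1 : ℝ) ≤ max 1 |((jE a b : ℚ) : ℝ)| := le_max_left _ _
    have h0 : 0 ≤ Real.log (max 1 |((jE a b : ℚ) : ℝ)|) := Real.log_nonneg hm
    have k1 := le_abs_self c1
    have k2 := le_abs_self c2
    have k1' := abs_nonneg c1
    have k2' := abs_nonneg c2
    refine ⟨by linarith, by linarith, ?_⟩
    have hDp : 0 < |((Dd a b : ℤ) : ℝ)| := by
      rw [abs_pos]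
      exact_mod_cast hD
    have hM : 0 < Mx a b := lt_of_lt_of_le hDp (le_max_right _ _)
    have h3 : Real.log (max 1 |((jE a b : ℚ) : ℝ)|) + Real.log |((Dd a b : ℤ) : ℝ)| ≤
        Real.log 6912 + Real.log (Mx a b) := by
      rw [← Real.log_mul (by positivity) hDp.ne', ← Real.log_mul (by norm_num) hM.ne']
      refine Real.log_le_log (by positivity) ?_
      rw [max_mul_of_nonneg _ _ hDp.le, one_mul, jE_abs hD]
      refine max_le ?_ ?_
      · have : |((Dd a b : ℤ) : ℝ)| ≤ Mx a b := le_max_right _ _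
        linarith
      · have : |(a : ℝ)| ^ 3 ≤ Mx a b := le_max_left _ _
        linarith
    linarith

end Pool.Agent.N195.FH
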