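import Pool.Agent.N367.LE.Stm

/-! Counting all ideals of given norm in the order of discriminant `n ^ 2 + 4`, Dedekind case. -/

namespace Pool.Agent.N195.LECA

open H419R2 QuadraticAlgebra Module Pool.Agent.N367.LE

section
variable {R m : ℤ} [IsDedekindDomain (QA R m)]

theorem absNorm_span (z : QA R m) :
    Ideal.absNorm (Ideal.span {z}) = (QuadraticAlgebra.norm z).natAbs := by
  rw [Ideal.absNorm_span_singleton, algebra_norm_eq]

/-- number of ideals of norm `n` -/
noncomputable def cn (R m : ℤ) [IsDedekindDomain (QA R m)] (n : ℕ) : ℕ :=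
  Set.ncard {I : Ideal (QA R m) | Ideal.absNorm I = n}

theorem finite_norm (n : ℕ) : {I : Ideal (QA R m) | Ideal.absNorm I = n}.Finite :=
  Ideal.finite_setOfPred_absNorm_eq n

theorem cn_one : cn R m 1 = 1 := by
  unfold cn
  have : {I : Ideal (QA R m) | Ideal.absNorm I = 1} = {⊤} := by
    ext I; simp [Ideal.absNorm_eq_one_iff]
  rw [this]; simp

/-- ideals divisible by `P` of norm `N P * n` correspond to ideals of norm `n`. -/
theorem ncard_dvd (P : Ideal (QA R m)) {d : ℕ} (hP : Ideal.absNorm P = d) (hd : 0 < d) (n : ℕ) :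
    Set.ncard {I : Ideal (QA R m) | Ideal.absNorm I = d * n ∧ P ∣ I} = cn R m n := by
  unfold cn
  have hP0 : P ≠ 0 := by
    rintro rfl
    simp at hP; omega
  have : {I : Ideal (QA R m) | Ideal.absNorm I = d * n ∧ P ∣ I}
      = (fun J => P * J) '' {I : Ideal (QA R m) | Ideal.absNorm I = n} := by
    ext I
    simp only [Set.mem_ofPred_eq, Set.mem_image]
    constructor
    · rintro ⟨h1, J, rfl⟩
      refine ⟨J, ?_, rfl⟩
      rw [map_mul, hP] at h1
      exact Nat.eq_of_mul_eq_mul_left hd h1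
    · rintro ⟨J, h1, rfl⟩
      refine ⟨?_, J, rfl⟩
      rw [map_mul, hP, h1]
  rw [this]
  exact Set.ncard_image_of_injective _ (mul_right_injective₀ hP0)

theorem ncard_dvd_zero (P : Ideal (QA R m)) {d : ℕ} (hP : Ideal.absNorm P = d) {N : ℕ}
    (h : ¬ d ∣ N) :
    Set.ncard {I : Ideal (QA R m) | Ideal.absNorm I = N ∧ P ∣ I} = 0 := by
  have : {I : Ideal (QA R m) | Ideal.absNorm I = N ∧ P ∣ I} = ∅ := by
    ext I
    simp only [Set.mem_ofPred_eq, Set.mem_empty_iff_false, iff_false]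
    rintro ⟨h1, J, rfl⟩
    apply h
    rw [map_mul, hP] at h1
    exact ⟨_, h1.symm⟩
  rw [this]; simp

theorem dvd_norm_of_mem {l : ℕ} {I : Ideal (QA R m)} (hI : l ∣ Ideal.absNorm I) {z : QA R m}
    (hz : z ∈ I) : (l : ℤ) ∣ QuadraticAlgebra.norm z := by
  have h1 : Ideal.absNorm I ∣ Ideal.absNorm (Ideal.span {z}) :=
    Ideal.absNorm_dvd_absNorm_of_le ((Ideal.span_singleton_le_iff_mem _).mpr hz)
  rw [absNorm_span] at h1
  have h2 : l ∣ (QuadraticAlgebra.norm z).natAbs := hI.trans h1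
  have : (l : ℤ) ∣ ((QuadraticAlgebra.norm z).natAbs : ℤ) := by exact_mod_cast h2
  exact Int.dvd_natAbs.mp this

theorem absNorm_natCast (l : ℕ) :
    Ideal.absNorm (Ideal.span {((l : ℕ) : QA R m)}) = l * l := by
  rw [absNorm_span, norm_natCast', Int.natAbs_pow, Int.natAbs_natCast, sq]

theorem cn_inert {l : ℕ} (hl : l.Prime) (hin : Inert R m l) (n : ℕ) :
    cn R m (l * n) = if l ∣ n then cn R m (n / l) else 0 := by
  have hset : {I : Ideal (QA R m) | Ideal.absNorm I = l * n} =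
      {I : Ideal (QA R m) | Ideal.absNorm I = l * n ∧ Ideal.span {((l : ℕ) : QA R m)} ∣ I} := by
    ext I
    simp only [Set.mem_ofPred_eq]
    constructor
    · intro h
      refine ⟨h, ?_⟩
      rw [Ideal.dvd_iff_le]
      intro z hz
      rw [Ideal.mem_span_singleton, natCast_dvd_iff]
      apply hin
      rw [← norm_eq]
      exact dvd_norm_of_mem (by rw [h]; exact ⟨n, rfl⟩) hz
    · exact fun h => h.1
  have hN : Ideal.absNorm (Ideal.span {((l : ℕ) : QA R m)}) = l * l := absNorm_natCast l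
  unfold cn
  rw [hset]
  split_ifs with h
  · obtain ⟨k, rfl⟩ := h
    rw [Nat.mul_div_cancel_left _ hl.pos, ← mul_assoc]
    exact ncard_dvd _ hN (Nat.mul_pos hl.pos hl.pos) k
  · apply ncard_dvd_zero _ hN
    rintro ⟨k, hk⟩
    apply h
    exact ⟨k, Nat.eq_of_mul_eq_mul_left hl.pos (by rw [hk]; ring)⟩

theorem isMaximal_of_norm {l : ℕ} (hl : l.Prime) {L : Ideal (QA R m)}
    (hL : Ideal.absNorm L = l) : L.IsMaximal := by
  have h1 : L.IsPrime := Ideal.isPrime_of_irreducible_absNorm (by rw [hL]; exact hl)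
  refine h1.isMaximal ?_
  rintro rfl
  simp at hL
  exact hl.ne_zero hL.symm

theorem dvd_or {l : ℕ} (hl : l.Prime) {L L' : Ideal (QA R m)} (hL : Ideal.absNorm L = l)
    (hL' : Ideal.absNorm L' = l) (hLL : L * L' = Ideal.span {((l : ℕ) : QA R m)})
    {I : Ideal (QA R m)} (hI : l ∣ Ideal.absNorm I) : L ∣ I ∨ L' ∣ I := by
  have hne : I ⊔ Ideal.span {((l : ℕ) : QA R m)} ≠ ⊤ := by
    intro h
    have h1 : (1 : QA R m) ∈ I ⊔ Ideal.span {((l : ℕ) : QA R m)} := by rw [h]; trivial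
    obtain ⟨a, ha, b, hb, hab⟩ := Submodule.mem_sup.mp h1
    obtain ⟨c, rfl⟩ := Ideal.mem_span_singleton.mp hb
    have h2 := dvd_norm_of_mem hI ha
    have ha' : a = 1 - ((l : ℕ) : QA R m) * c := by rw [← hab]; ring
    rw [ha', norm_eq] at h2
    have hre : (1 - ((l : ℕ) : QA R m) * c).re = 1 - l * c.re := by
      simp [QuadraticAlgebra.re_mul]
    have him : (1 - ((l : ℕ) : QA R m) * c).im = - (l * c.im) := by
      simp [QuadraticAlgebra.im_mul]
    rw [hre, him] at h2
    have h3 : (l : ℤ) ∣ 1 := by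
      have h4 : (1 : ℤ) = ((1 - l * c.re) ^ 2 + m * (1 - l * c.re) * (-(l * c.im)) -
          R * (-(l * c.im)) ^ 2) - l * (-2 * c.re + l * c.re ^ 2 - m * (1 - l * c.re) * c.im -
          R * l * c.im ^ 2) := by ring
      rw [h4]
      exact dvd_sub h2 (Dvd.intro _ rfl)
    have := Int.eq_one_of_dvd_one (by positivity) h3
    have := hl.two_le
    omega
  obtain ⟨P, hP, hle⟩ := Ideal.exists_le_maximal _ hne
  have hIP : I ≤ P := le_sup_left.trans hle
  have hlP : L * L' ≤ P := by rw [hLL]; exact le_sup_right.trans hle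
  rcases (hP.isPrime.mul_le).mp hlP with h | h
  · left
    have := (isMaximal_of_norm hl hL).eq_of_le hP.ne_top h
    rw [this, Ideal.dvd_iff_le]; exact hIP
  · right
    have := (isMaximal_of_norm hl hL').eq_of_le hP.ne_top h
    rw [this, Ideal.dvd_iff_le]; exact hIP

theorem exists_conj {l : ℕ} (hl : l.Prime) {L : Ideal (QA R m)} (hL : Ideal.absNorm L = l) :
    ∃ L' : Ideal (QA R m), Ideal.absNorm L' = l ∧
      L * L' = Ideal.span {((l : ℕ) : QA R m)} := by
  have h1 : ((l : ℕ) : QA R m) ∈ L := by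
    have := Ideal.absNorm_mem L
    rwa [hL] at this
  have h2 : L ∣ Ideal.span {((l : ℕ) : QA R m)} := by
    rw [Ideal.dvd_iff_le]
    exact (Ideal.span_singleton_le_iff_mem _).mpr h1
  obtain ⟨L', hL'⟩ := h2
  refine ⟨L', ?_, hL'.symm⟩
  have h3 := absNorm_natCast (R := R) (m := m) l
  rw [hL', map_mul, hL] at h3
  exact Nat.eq_of_mul_eq_mul_left hl.pos h3

theorem cn_set {l : ℕ} (hl : l.Prime) {L L' : Ideal (QA R m)} (hL : Ideal.absNorm L = l)
    (hL' : Ideal.absNorm L' = l) (hLL : L * L' = Ideal.span {((l : ℕ) : QA R m)}) (n : ℕ) :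
    {I : Ideal (QA R m) | Ideal.absNorm I = l * n} =
      {I : Ideal (QA R m) | Ideal.absNorm I = l * n ∧ L ∣ I} ∪
      {I : Ideal (QA R m) | Ideal.absNorm I = l * n ∧ L' ∣ I} := by
  ext I
  simp only [Set.mem_ofPred_eq, Set.mem_union]
  constructor
  · intro h
    rcases dvd_or hl hL hL' hLL (I := I) (by rw [h]; exact ⟨n, rfl⟩) with h2 | h2
    · left; exact ⟨h, h2⟩
    · right; exact ⟨h, h2⟩
  · rintro (h | h) <;> exact h.1

theorem cn_ramified {l : ℕ} (hl : l.Prime) {L : Ideal (QA R m)} (hL : Ideal.absNorm L = l)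
    (hLL : L * L = Ideal.span {((l : ℕ) : QA R m)}) (n : ℕ) : cn R m (l * n) = cn R m n := by
  have h1 := cn_set hl hL hL hLL n
  rw [Set.union_self] at h1
  have h2 := ncard_dvd L hL hl.pos n
  rw [← h1] at h2
  exact h2

theorem cn_split {l : ℕ} (hl : l.Prime) {L L' : Ideal (QA R m)} (hL : Ideal.absNorm L = l)
    (hL' : Ideal.absNorm L' = l) (hLL : L * L' = Ideal.span {((l : ℕ) : QA R m)})
    (has : L ≠ L') (n : ℕ) :
    cn R m (l * n) + (if l ∣ n then cn R m (n / l) else 0) = 2 * cn R m n := by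
  have h1 := cn_set hl hL hL' hLL n
  have h2 := ncard_dvd L hL hl.pos n
  have h3 := ncard_dvd L' hL' hl.pos n
  have hfin : {I : Ideal (QA R m) | Ideal.absNorm I = l * n}.Finite := finite_norm _
  have hf1 : {I : Ideal (QA R m) | Ideal.absNorm I = l * n ∧ L ∣ I}.Finite :=
    hfin.subset (fun I hI => hI.1)
  have hf2 : {I : Ideal (QA R m) | Ideal.absNorm I = l * n ∧ L' ∣ I}.Finite :=
    hfin.subset (fun I hI => hI.1)
  have h4 := Set.ncard_union_add_ncard_inter _ _ hf1 hf2
  rw [← h1, h2, h3] at h4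
  have h5 : {I : Ideal (QA R m) | Ideal.absNorm I = l * n ∧ L ∣ I} ∩
      {I : Ideal (QA R m) | Ideal.absNorm I = l * n ∧ L' ∣ I} =
      {I : Ideal (QA R m) | Ideal.absNorm I = l * n ∧ Ideal.span {((l : ℕ) : QA R m)} ∣ I} := by
    ext I
    simp only [Set.mem_ofPred_eq, Set.mem_inter_iff]
    constructor
    · rintro ⟨⟨h6, J, rfl⟩, ⟨_, h8⟩⟩
      refine ⟨h6, ?_⟩
      have hmax' := isMaximal_of_norm hl hL'
      rw [Ideal.dvd_iff_le] at h8
      rcases (hmax'.isPrime.mul_le).mp h8 with h9 | h9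
      · exfalso
        exact has ((isMaximal_of_norm hl hL).eq_of_le hmax'.ne_top h9)
      · rw [← hLL]
        exact mul_dvd_mul_left _ (Ideal.dvd_iff_le.mpr h9)
    · rintro ⟨h6, h7⟩
      rw [← hLL] at h7
      exact ⟨⟨h6, (Dvd.intro _ rfl).trans h7⟩, ⟨h6, (Dvd.intro_left _ rfl).trans h7⟩⟩
  have hNl : Ideal.absNorm (Ideal.span {((l : ℕ) : QA R m)}) = l * l := absNorm_natCast l
  have h6 : (if l ∣ n then cn R m (n / l) else 0) =
      Set.ncard {I : Ideal (QA R m) | Ideal.absNorm I = l * n ∧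
        Ideal.span {((l : ℕ) : QA R m)} ∣ I} := by
    split_ifs with h
    · obtain ⟨k, rfl⟩ := h
      rw [Nat.mul_div_cancel_left _ hl.pos, ← mul_assoc]
      exact (ncard_dvd _ hNl (Nat.mul_pos hl.pos hl.pos) k).symm
    · symm
      apply ncard_dvd_zero _ hNl
      rintro ⟨k, hk⟩
      apply h
      exact ⟨k, Nat.eq_of_mul_eq_mul_left hl.pos (by rw [hk]; ring)⟩
  rw [h5, ← h6] at h4
  have : cn R m (l * n) = Set.ncard {I : Ideal (QA R m) | Ideal.absNorm I = l * n} := rfl
  rw [← this] at h4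
  omega

end

theorem cn_rec (hGR : S_GR) {n : ℕ} (hn : n % 2 = 1) (hsf : Squarefree (n ^ 2 + 4))
    [IsDedekindDomain (QA 1 (n : ℤ))] {l : ℕ} (hl : l.Prime) (k : ℕ) :
    (cn 1 (n : ℤ) (l * k) : ℤ) = (1 + jacobiSym l (n ^ 2 + 4)) * cn 1 (n : ℤ) k
      - jacobiSym l (n ^ 2 + 4) * (if l ∣ k then (cn 1 (n : ℤ) (k / l) : ℤ) else 0) := by
  have hD : ((n ^ 2 + 4 : ℕ) : ℤ) = (n : ℤ) ^ 2 + 4 * 1 := by push_cast; ring
  have hm : (n : ℤ) % 2 = 1 := by omega
  have hR : (1 : ℤ) % 2 = 1 := by norm_num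
  have hD8 : (n ^ 2 + 4) % 8 = 5 := by
    obtain ⟨j, hj⟩ : ∃ j, n = 2 * j + 1 := ⟨n / 2, by omega⟩
    have h0 : n ^ 2 = 4 * (j * (j + 1)) + 1 := by rw [hj]; ring
    have h2 : j * (j + 1) % 2 = 0 := by
      rcases Nat.even_or_odd j with ⟨a, ha⟩ | ⟨a, ha⟩
      · rw [ha]; ring_nf; omega
      · rw [ha]; ring_nf; omega
    omega
  set D := n ^ 2 + 4 with hDdef
  by_cases h2 : l = 2
  · subst h2
    have hj : jacobiSym ((2 : ℕ) : ℤ) D = -1 := by
      have hodd : Odd D := Nat.odd_iff.mpr (by omega)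
      have := jacobiSym.at_two hodd
      push_cast
      rw [this, ZMod.χ₈_nat_eq_if_mod_eight]
      simp [hD8]
      omega
    rw [hj, cn_inert hl (inert_two hm hR)]
    split_ifs <;> simp
  · have hodd : Odd l := hl.odd_of_ne_two h2
    haveI := Fact.mk hl
    have hj : jacobiSym (l : ℤ) D = legendreSym l (D : ℤ) := by
      rw [jacobiSym.legendreSym.to_jacobiSym]
      exact (jacobiSym.quadratic_reciprocity_one_mod_four (by omega) hodd).symm
    rw [hj]
    obtain ⟨hg1, hg2⟩ := hGR n hn l hl h2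
    by_cases hz : ((D : ℤ) : ZMod l) = 0
    · rw [(legendreSym.eq_zero_iff l (D : ℤ)).mpr hz]
      have hlD : l ∣ n ^ 2 + 4 := by
        have := (ZMod.intCast_zmod_eq_zero_iff_dvd _ l).mp hz
        exact_mod_cast this
      obtain ⟨L, hL, hL2⟩ := hg2 hsf hlD
      rw [cn_ramified hl hL (by rw [← sq]; exact hL2)]
      simp
    · by_cases hs : IsSquare ((D : ℤ) : ZMod l)
      · have hleg := (legendreSym.eq_one_iff l hz).mpr hs
        rw [hleg]
        have hj1 : jacobiSym ((n : ℤ) ^ 2 + 4) l = 1 := by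
          have h5 : ((n : ℤ) ^ 2 + 4) = (D : ℤ) := by rw [hDdef]; push_cast; ring
          rw [h5, ← jacobiSym.legendreSym.to_jacobiSym]
          exact hleg
        obtain ⟨L, hL, hL2⟩ := hg1 hj1
        obtain ⟨L', hL', hLL⟩ := exists_conj hl hL
        have has : L ≠ L' := by
          intro h
          rw [← h, ← sq] at hLL
          exact hL2 l hLL
        have h3 := cn_split hl hL hL' hLL has k
        split_ifs at h3 ⊢ <;> push_cast [← h3] <;> linarith
      · rw [(legendreSym.eq_neg_one_iff l).mpr hs]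
        rw [cn_inert hl (inert_of_not_square hl h2 hD hs)]
        split_ifs <;> simp

theorem cn_eq_rr (hGR : S_GR) {n : ℕ} (hn : n % 2 = 1) (hsf : Squarefree (n ^ 2 + 4))
    [IsDedekindDomain (QA 1 (n : ℤ))] (k : ℕ) (hk : k ≠ 0) :
    (cn 1 (n : ℤ) k : ℤ) = rr (n ^ 2 + 4) k := by
  induction k using Nat.strong_induction_on with
  | _ k ih =>
    by_cases h1 : k = 1
    · subst h1
      rw [cn_one, rr_one]; simp
    · obtain ⟨l, hl, j, hj⟩ := Nat.exists_prime_and_dvd h1
      have hj0 : j ≠ 0 := by rintro rfl; simp at hj; exact hk hj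
      have hjk : j < k := by
        rw [hj]
        have := hl.two_le
        have : 0 < j := Nat.pos_of_ne_zero hj0
        nlinarith
      rw [hj, cn_rec hGR hn hsf hl, rr_rec hl hj0, ih j hjk hj0]
      congr 2
      split_ifs with h
      · obtain ⟨i, hi⟩ := h
        have hi0 : i ≠ 0 := by rintro rfl; simp at hi; exact hj0 hi
        have : j / l = i := by rw [hi]; exact Nat.mul_div_cancel_left _ hl.pos
        rw [this]
        apply ih i _ hi0
        have : i ≤ j := by rw [hi]; exact Nat.le_mul_of_pos_left _ hl.pos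
        omega
      · rfl

/-- the number of all ideals of norm `k` -/
theorem ca : S_GR → S_CA := by
  intro hGR n hn hsf _ k hk
  exact cn_eq_rr hGR hn hsf k hk

end Pool.Agent.N195.LECA
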