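import Mathlib
import Pool.Agent.N819.UD.Stm

set_option autoImplicit false

/-!
# Project UD, leaf DUAL (helper195): dual functions of a spanning tree modulo two
-/

namespace Pool.Agent.N195.UDDUAL

open Pool.Agent.N819.UD Pool.Agent.N819.LT Pool.Agent.TH625.LOG

theorem main : Pool.Agent.N819.UD.S_DUAL := by
  intro V E _ _ _ _ p lab hcard hconn
  have hne : Nonempty V := by
    rw [← Fintype.card_pos_iff, hcard]; omega
  obtain ⟨r⟩ := hne
  have hc : Fintype.card V = Fintype.card (Option E) := by rw [Fintype.card_option, hcard]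
  let σ : V ≃ Option E := Fintype.equivOfCardEq hc
  have hdet : (mat r σ p lab).det ≠ 0 := (det_ne_zero_iff r σ p lab).2 hconn
  have hu : IsUnit (mat r σ p lab).det := by
    have h0 : ∀ z : ZMod 2, z ≠ 0 → IsUnit z := by decide
    exact h0 _ hdet
  let a : E → V → ZMod 2 := fun f x =>
    ((mat r σ p lab)⁻¹.mulVec (Pi.single (some f) 1)) (σ x)
  have h1 : ∀ f e, a f (p e) + a f (lab e) = if e = f then 1 else 0 := by
    intro f e
    have h2 := mulVec_some r σ p lab ((mat r σ p lab)⁻¹.mulVec (Pi.single (some f) 1)) e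
    rw [Matrix.mulVec_mulVec, Matrix.mul_nonsing_inv _ hu, Matrix.one_mulVec, Pi.single_apply] at h2
    have h3 : a f (p e) + a f (lab e) = if some e = some f then 1 else 0 := h2.symm
    rw [h3]
    by_cases h4 : e = f
    · rw [if_pos h4, if_pos (congrArg some h4)]
    · rw [if_neg h4, if_neg fun h => h4 (Option.some.inj h)]
  refine ⟨a, h1, fun v x y => ?_⟩
  have h20 : (2 : ZMod 2) = 0 := by decide
  let d : V → ZMod 2 := fun z => v z + ∑ f, (v (p f) + v (lab f)) * a f z
  have hd0 : ∀ z, d z = v z + ∑ f, (v (p f) + v (lab f)) * a f z := fun z => rfl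
  have hd : ∀ e, d (p e) = d (lab e) := by
    intro e
    have h3 : ∑ f, (v (p f) + v (lab f)) * a f (p e) + ∑ f, (v (p f) + v (lab f)) * a f (lab e) =
        v (p e) + v (lab e) := by
      rw [← Finset.sum_add_distrib]
      have h4 : ∀ f, (v (p f) + v (lab f)) * a f (p e) + (v (p f) + v (lab f)) * a f (lab e) =
          if e = f then v (p f) + v (lab f) else 0 := by
        intro f
        rw [← mul_add, h1 f e]
        by_cases h5 : e = f
        · rw [if_pos h5, if_pos h5, mul_one]
        · rw [if_neg h5, if_neg h5, mul_zero]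
      rw [Finset.sum_congr rfl fun f _ => h4 f, Finset.sum_ite_eq, if_pos (Finset.mem_univ _)]
    rw [hd0, hd0]
    linear_combination h3 + (v (p e) - ∑ f, (v (p f) + v (lab f)) * a f (lab e)) * h20
  have hd2 : ∀ x y, d x = d y := by
    intro x y
    induction hconn x y with
    | refl => rfl
    | tail _ h3 ih =>
      obtain ⟨e, ⟨a1, a2⟩ | ⟨a1, a2⟩⟩ := h3
      · rw [ih, ← a1, ← a2, hd]
      · rw [ih, ← a1, ← a2, hd]
  have h5 := hd2 x y
  rw [hd0, hd0] at h5
  have h6 : ∑ f, (v (p f) + v (lab f)) * (a f x + a f y) =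
      ∑ f, (v (p f) + v (lab f)) * a f x + ∑ f, (v (p f) + v (lab f)) * a f y := by
    rw [← Finset.sum_add_distrib]
    exact Finset.sum_congr rfl fun f _ => mul_add _ _ _
  rw [h6]
  linear_combination h5 + (v y - ∑ f, (v (p f) + v (lab f)) * a f x) * h20

end Pool.Agent.N195.UDDUAL
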